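import Pool.Agent.R542.Star.Main

/-!
# Visiting all vertices of a temporal star in which no edge is absent twice in a row is NP-hard

For every `Δ ≥ 2`, in particular for `Δ = 2`, the decision version of DMVP on stars in the class
`B_Δ` is NP-hard: given a star `G`, a start vertex `s`, a deadline `t` and a schedule (a list of
subgraphs of `G` with durations in binary) in which every edge is available at least once in every
`Δ` consecutive steps, can the agent visit all vertices by time `t`?

The reduction is from 3SAT with `m` clauses and `N = 3 m` variables. The star has `n` leaves, and
the deadline is `2 n - 1 + N`; so the agent can lose at most `N` steps. The number of steps lost so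
far is never decreasing, and its parity decides in which slots of length two the agent can make the
next visit without loss. The time is cut into segments `S_0, N_0, P_0, S_1, N_1, P_1, …, S_N`. In
each segment a leaf either has no two consecutive times at which its edge is available, or just one
such slot, the designated one, which is at an even or odd offset depending on the parity of `i` in
`S_i` and `P_i` and of `i + 1` in `N_i` (apart from one slot at the beginning or the end of the
segment). There are `7 N + 4` copies of each leaf, so one copy has to be visited in its
designated slot. The copies of the synchronizing leaf `i` have their designated slots in `S_i`
only; so exactly `i` steps are lost before it is visited, and one step is lost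
between `S_i` and `S_{i+1}`: before `N_i` (the variable `i` is false) or after `P_i` (it is true).
The leaf of a clause has designated slots in `N_i` (`P_i`) if the clause contains the negated
(positive) variable `i`. All other leaves are always available.

Definitions used in the statement: `FinGraph` (`Pool/Agent/H692R2/FinGraph.lean`: a simple graph on
`{0, …, n - 1}`, coded by its adjacency matrix), `NPHardOn` (`Pool/Agent/H673R2/HardOn.lean`: every
language in NP has a polynomial-time many-one reduction to the problem all of whose instances are
in the class), `Valid`, `Covers` and the definitions used there
(`Pool/Agent/R542/Star/Main.lean`).
-/

set_option autoImplicit false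

namespace Pool.Agent.Results.MP_21485e_lc.StarRecurrenceHard

open Pool.Agent.NPC Pool.Agent.H673R2 Pool.Agent.NPC.R542.Star

/-- **DMVP on stars in `B_Δ` is NP-hard for every `Δ ≥ 2`.** `Valid Δ (G, s, t, S)`: `G` is a star, `s`
a vertex, and `S` is a schedule of subgraphs of `G` in which every edge of `G` is available in every
`Δ` consecutive steps. `Covers (G, s, t, S)`: the agent can visit all vertices by time `t`. -/
theorem result (Δ : ℕ) (hΔ : 2 ≤ Δ) : NPHardOn (Valid Δ) Covers := star_hard Δ hΔ

end Pool.Agent.Results.MP_21485e_lc.StarRecurrenceHard
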